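import Mathlib
import Pool.Agent.Lib.MP_b573ec_lc_HM.Core

/-!
# Classes of blocks for a tape on which every variable is written few times

The cell `c` of the tape carries the variable `φ c`; every variable is written in at most `r` cells.
There are `p` disjoint classes of blocks such that for each of them many variables are written only
in blocks of this class (without margins).
-/

set_option autoImplicit false

namespace Pool.Agent.SC

open Finset
open Pool.Agent.HM (InI)

/-- the cells in the margins -/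
private theorem margin_card {m M b B : ℕ} (hcov : m ≤ M * b) :
    (univ.filter fun c : Fin m => ∀ i : Fin M, ¬ InI 0 b B i c).card ≤ 2 * B * M := by
  classical
  rcases Nat.eq_zero_or_pos b with hb | hb
  · subst hb
    rw [Nat.mul_zero, Nat.le_zero] at hcov
    subst hcov
    simp
  -- the cell `c` goes to the pair (block, offset or distance to the end)
  have h1 : (univ.filter fun c : Fin m => ∀ i : Fin M, ¬ InI 0 b B i c).card ≤
      ((univ : Finset (Fin M)) ×ˢ (range B ×ˢ (univ : Finset Bool))).card := by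
    refine card_le_card_of_injOn (fun c : Fin m => ((⟨(c : ℕ) / b,
      (Nat.div_lt_iff_lt_mul hb).2 (lt_of_lt_of_le c.2 hcov)⟩ : Fin M),
      (if (c : ℕ) % b < B then (c : ℕ) % b else b - 1 - (c : ℕ) % b,
        decide ((c : ℕ) % b < B)))) ?_ ?_
    · intro c hc
      rw [mem_coe, mem_filter] at hc
      have h2 := hc.2 ⟨(c : ℕ) / b, (Nat.div_lt_iff_lt_mul hb).2 (lt_of_lt_of_le c.2 hcov)⟩
      unfold InI at h2
      have h3 := Nat.div_add_mod (c : ℕ) b
      have h4 := Nat.mod_lt (c : ℕ) hb
      rw [Nat.mul_comm] at h3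
      simp only [Nat.succ_mul, Nat.zero_add] at h2
      simp only [coe_product, Set.mem_prod, mem_coe, mem_univ, mem_range, true_and, and_true]
      split_ifs with h5
      · exact h5
      · omega
    · intro c _ c' _ h
      simp only [Prod.mk.injEq, Fin.mk.injEq, decide_eq_decide] at h
      obtain ⟨h2, h3, h4⟩ := h
      have h5 := Nat.div_add_mod (c : ℕ) b
      have h6 := Nat.div_add_mod (c' : ℕ) b
      have h7 := Nat.mod_lt (c : ℕ) hb
      have h8 := Nat.mod_lt (c' : ℕ) hb
      have h9 : (c : ℕ) % b = (c' : ℕ) % b := by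
        by_cases h10 : (c : ℕ) % b < B
        · rw [if_pos h10, if_pos (h4.1 h10)] at h3
          exact h3
        · rw [if_neg h10, if_neg (fun h11 => h10 (h4.2 h11))] at h3
          omega
      apply Fin.ext
      rw [← h5, ← h6, h2, h9]
  refine h1.trans (le_of_eq ?_)
  simp
  ring

/-- the cells in few blocks -/
private theorem block_card {m M b B : ℕ} (U : Finset (Fin M)) :
    (univ.filter fun c : Fin m => ∃ i ∈ U, InI 0 b B i c).card ≤ U.card * b := by
  classical
  have h1 : (univ.filter fun c : Fin m => ∃ i ∈ U, InI 0 b B i c) ⊆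
      U.biUnion fun i => univ.filter fun c : Fin m => InI 0 b B i c := by
    intro c hc
    rw [mem_filter] at hc
    obtain ⟨i, hi, hi'⟩ := hc.2
    rw [mem_biUnion]
    exact ⟨i, hi, mem_filter.2 ⟨mem_univ _, hi'⟩⟩
  refine (card_le_card h1).trans (card_biUnion_le_card_mul _ _ _ fun i _ => ?_)
  have h2 : (univ.filter fun c : Fin m => InI 0 b B i c).card ≤ (range b).card := by
    refine card_le_card_of_injOn (fun c : Fin m => (c : ℕ) - i * b) ?_ ?_
    · intro c hc
      rw [mem_coe, mem_filter] at hc
      have h3 := hc.2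
      unfold InI at h3
      have h9 : ((i : ℕ) + 1) * b = (i : ℕ) * b + b := by ring
      rw [h9] at h3
      rw [mem_coe, mem_range]
      show (c : ℕ) - (i : ℕ) * b < b
      omega
    · intro c hc c' hc' h
      rw [mem_coe, mem_filter] at hc hc'
      have h3 := hc.2
      have h4 := hc'.2
      unfold InI at h3 h4
      apply Fin.ext
      simp only at h
      omega
  rwa [card_range] at h2

/-- one more class -/
private theorem one_class {V : Type} [Fintype V] [DecidableEq V] {m M b B p r : ℕ}
    (φ : Fin m → V) (hφ : ∀ e, (univ.filter fun c => φ c = e).card ≤ r) (hcov : m ≤ M * b)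
    (hmarg : 4 * (2 * B * M) ≤ Fintype.card V) (hU : 4 * (p * r * b) ≤ Fintype.card V)
    (U : Finset (Fin M)) (hUc : U.card ≤ p * r) :
    ∃ I : Finset (Fin M), Disjoint I U ∧ I.card ≤ r ∧ Fintype.card V ≤ 2 * 2 ^ M *
      (univ.filter fun e : V => ∀ c : Fin m, φ c = e → ∃ i ∈ I, InI 0 b B i c).card := by
  classical
  rcases Nat.eq_zero_or_pos (Fintype.card V) with hV | hV
  · exact ⟨∅, disjoint_empty_left _, by simp, by rw [hV]; exact Nat.zero_le _⟩
  let Ie : V → Finset (Fin M) := fun e => univ.filter fun i => ∃ c : Fin m, φ c = e ∧ InI 0 b B i c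
  -- the good variables
  let G : Finset V := univ.filter fun e => (∀ c : Fin m, φ c = e → ∃ i : Fin M, InI 0 b B i c) ∧
    ∀ c : Fin m, φ c = e → ¬ ∃ i ∈ U, InI 0 b B i c
  have hG : Fintype.card V ≤ 2 * G.card := by
    have h1 : (univ : Finset V) ⊆ G ∪ ((univ.filter fun c : Fin m => ∀ i : Fin M,
        ¬ InI 0 b B i c).image φ ∪ (univ.filter fun c : Fin m => ∃ i ∈ U, InI 0 b B i c).image φ) := by
      intro e _
      rw [mem_union, mem_union, mem_image, mem_image]
      by_cases he : e ∈ G
      · exact Or.inl he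
      · right
        have h2 : ¬ ((∀ c : Fin m, φ c = e → ∃ i : Fin M, InI 0 b B i c) ∧
            ∀ c : Fin m, φ c = e → ¬ ∃ i ∈ U, InI 0 b B i c) := fun h =>
          he (mem_filter.2 ⟨mem_univ _, h⟩)
        rw [not_and_or] at h2
        push Not at h2
        rcases h2 with ⟨c, hc, hc'⟩ | ⟨c, hc, hc'⟩
        · exact Or.inl ⟨c, mem_filter.2 ⟨mem_univ _, hc'⟩, hc⟩
        · exact Or.inr ⟨c, mem_filter.2 ⟨mem_univ _, hc'⟩, hc⟩
    have h2 := card_le_card h1
    rw [card_univ] at h2
    have h3 := card_union_le G ((univ.filter fun c : Fin m => ∀ i : Fin M,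
        ¬ InI 0 b B i c).image φ ∪ (univ.filter fun c : Fin m => ∃ i ∈ U, InI 0 b B i c).image φ)
    have h4 := card_union_le ((univ.filter fun c : Fin m => ∀ i : Fin M,
        ¬ InI 0 b B i c).image φ) ((univ.filter fun c : Fin m => ∃ i ∈ U, InI 0 b B i c).image φ)
    have h5 := (card_image_le (s := univ.filter fun c : Fin m => ∀ i : Fin M,
        ¬ InI 0 b B i c) (f := φ)).trans (margin_card hcov)
    have h6 := (card_image_le (s := univ.filter fun c : Fin m => ∃ i ∈ U, InI 0 b B i c)
      (f := φ)).trans ((block_card U).trans (Nat.mul_le_mul_right b hUc))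
    omega
  have hGpos : 0 < G.card := by omega
  -- pigeonhole
  obtain ⟨I, -, hI⟩ : ∃ I ∈ (univ : Finset (Finset (Fin M))),
      G.card ≤ 2 ^ M * (G.filter fun e => Ie e = I).card := by
    by_contra hcon
    push Not at hcon
    have h1 : G.card = ∑ I : Finset (Fin M), (G.filter fun e => Ie e = I).card :=
      card_eq_sum_card_fiberwise fun _ _ => mem_univ _
    have h2 : ∑ I : Finset (Fin M), 2 ^ M * (G.filter fun e => Ie e = I).card <
        ∑ _I : Finset (Fin M), G.card :=
      sum_lt_sum_of_nonempty univ_nonempty fun I hI => hcon I hI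
    rw [← mul_sum, ← h1, sum_const, card_univ, Fintype.card_finset, Fintype.card_fin,
      smul_eq_mul] at h2
    exact lt_irrefl _ h2
  have hpos : 0 < (G.filter fun e => Ie e = I).card := by
    rcases Nat.eq_zero_or_pos (G.filter fun e => Ie e = I).card with h | h
    · rw [h] at hI
      omega
    · exact h
  obtain ⟨e₀, he₀⟩ := card_pos.1 hpos
  rw [mem_filter] at he₀
  have hgood := (mem_filter.1 he₀.1).2
  refine ⟨I, ?_, ?_, ?_⟩
  · rw [← he₀.2, disjoint_left]
    intro i hi hiU
    obtain ⟨c, hc, hc'⟩ := (mem_filter.1 hi).2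
    exact hgood.2 c hc ⟨i, hiU, hc'⟩
  · rw [← he₀.2]
    refine le_trans ?_ (hφ e₀)
    have h1 := card_le_card_of_forall_subsingleton (s := Ie e₀)
      (t := univ.filter fun c => φ c = e₀) (fun (i : Fin M) (c : Fin m) => InI 0 b B i c) ?_ ?_
    · exact h1
    · intro i hi
      obtain ⟨c, hc, hc'⟩ := (mem_filter.1 hi).2
      exact ⟨c, mem_filter.2 ⟨mem_univ _, hc⟩, hc'⟩
    · rintro c - i ⟨-, hi⟩ i' ⟨-, hi'⟩
      unfold InI at hi hi'
      apply Fin.ext
      rcases lt_trichotomy (i : ℕ) (i' : ℕ) with h | h | h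
      · have h2 : ((i : ℕ) + 1) * b ≤ (i' : ℕ) * b := Nat.mul_le_mul_right _ h
        omega
      · exact h
      · have h2 : ((i' : ℕ) + 1) * b ≤ (i : ℕ) * b := Nat.mul_le_mul_right _ h
        omega
  · refine hG.trans ?_
    rw [Nat.mul_assoc]
    refine Nat.mul_le_mul_left _ (hI.trans (Nat.mul_le_mul_left _ (card_le_card ?_)))
    intro e he
    rw [mem_filter] at he ⊢
    refine ⟨mem_univ _, fun c hc => ?_⟩
    obtain ⟨i, hi⟩ := (mem_filter.1 he.1).2.1 c hc
    refine ⟨i, ?_, hi⟩
    rw [← he.2]
    exact mem_filter.2 ⟨mem_univ _, c, hc, hi⟩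

theorem exists_classes {V : Type} [Fintype V] [DecidableEq V] {m M b B p r : ℕ} (φ : Fin m → V)
    (hφ : ∀ e, (univ.filter fun c => φ c = e).card ≤ r) (hcov : m ≤ M * b)
    (hmarg : 4 * (2 * B * M) ≤ Fintype.card V) (hU : 4 * (p * r * b) ≤ Fintype.card V) :
    ∃ C : Fin p → Finset (Fin M), (∀ i j, i ≠ j → Disjoint (C i) (C j)) ∧
      ∀ j, Fintype.card V ≤ 2 * 2 ^ M *
        (univ.filter fun e : V => ∀ c : Fin m, φ c = e → ∃ i ∈ C j, InI 0 b B i c).card := by
  classical
  have key : ∀ q ≤ p, ∃ C : Fin q → Finset (Fin M), (∀ i j, i ≠ j → Disjoint (C i) (C j)) ∧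
      (∀ j, (C j).card ≤ r) ∧ ∀ j, Fintype.card V ≤ 2 * 2 ^ M *
        (univ.filter fun e : V => ∀ c : Fin m, φ c = e → ∃ i ∈ C j, InI 0 b B i c).card := by
    intro q
    induction q with
    | zero => exact fun _ => ⟨fun i => i.elim0, fun i => i.elim0, fun i => i.elim0,
        fun i => i.elim0⟩
    | succ q ih =>
      intro hq
      obtain ⟨C, h1, h2, h3⟩ := ih (by omega)
      obtain ⟨I, h4, h5, h6⟩ := one_class (p := p) φ hφ hcov hmarg hU (univ.biUnion C)
        ((card_biUnion_le_card_mul _ _ r fun j _ => h2 j).trans (by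
          rw [card_univ, Fintype.card_fin]
          exact Nat.mul_le_mul_right _ (by omega)))
      refine ⟨Fin.cons I C, fun i j hij => ?_, fun j => ?_, fun j => ?_⟩
      · have h7 : ∀ j, Disjoint I (C j) := fun j =>
          h4.mono_right (subset_biUnion_of_mem C (mem_univ j))
        refine Fin.cases ?_ (fun i' => ?_) i (motive := fun i => i ≠ j → Disjoint
          ((Fin.cons I C : Fin (q + 1) → Finset (Fin M)) i)
          ((Fin.cons I C : Fin (q + 1) → Finset (Fin M)) j)) hij
        · refine Fin.cases ?_ (fun j' => ?_) j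
          · exact fun h => absurd rfl h
          · exact fun _ => h7 j'
        · refine Fin.cases ?_ (fun j' => ?_) j
          · exact fun _ => (h7 i').symm
          · exact fun h => h1 i' j' fun h8 => h (by rw [h8])
      · refine Fin.cases ?_ (fun j' => ?_) j
        · exact h5
        · exact h2 j'
      · refine Fin.cases ?_ (fun j' => ?_) j
        · exact h6
        · exact h3 j'
  obtain ⟨C, h1, -, h3⟩ := key p le_rfl
  exact ⟨C, h1, h3⟩

end Pool.Agent.SC
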