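import Mathlib

/-!
# The parameters
-/

set_option autoImplicit false

namespace Pool.Agent.SC

private theorem c_pow {x y : ℝ} (hxy : x < y) (C : ℝ) :
    ∀ᶠ n : ℕ in Filter.atTop, C * (n : ℝ) ^ x ≤ (n : ℝ) ^ y := by
  have h1 : Filter.Tendsto (fun n : ℕ => ((n : ℝ)) ^ (y - x)) Filter.atTop Filter.atTop :=
    (tendsto_rpow_atTop (by linarith)).comp tendsto_natCast_atTop_atTop
  filter_upwards [h1.eventually_ge_atTop C, Filter.eventually_ge_atTop 1] with n hn h1n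
  have hn0 : (0 : ℝ) < n := by exact_mod_cast h1n
  have h2 : (n : ℝ) ^ y = (n : ℝ) ^ (y - x) * (n : ℝ) ^ x := by
    rw [← Real.rpow_add hn0]
    congr 1
    ring
  rw [h2]
  exact mul_le_mul_of_nonneg_right hn (Real.rpow_nonneg hn0.le x)

private theorem c_log (z : ℝ) (hz : 0 ≤ z) {s : ℝ} (hs : 0 < s) :
    ∀ᶠ n : ℕ in Filter.atTop, z + 2 * Real.logb 2 n ≤ (n : ℝ) ^ s := by
  set r : ℝ := s / 2 with hr
  have hr0 : 0 < r := by positivity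
  have hl2 : (0 : ℝ) < Real.log 2 := Real.log_pos (by norm_num)
  filter_upwards [Filter.eventually_ge_atTop 1,
    c_pow (show r < s by linarith) (z + 2 * (1 / (r * Real.log 2)))] with n hn f
  have hn1 : (1 : ℝ) ≤ n := by exact_mod_cast hn
  have hn0 : (0 : ℝ) < n := by linarith
  have h1 : (1 : ℝ) ≤ (n : ℝ) ^ r := Real.one_le_rpow hn1 hr0.le
  have h2 : Real.logb 2 n ≤ 1 / (r * Real.log 2) * (n : ℝ) ^ r := by
    have h3 := Real.log_le_rpow_div hn0.le hr0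
    rw [Real.logb, div_le_iff₀ hl2]
    refine h3.trans (le_of_eq ?_)
    field_simp
  have h4 : (z : ℝ) ≤ z * (n : ℝ) ^ r := le_mul_of_one_le_right hz h1
  refine le_trans ?_ f
  rw [add_mul]
  linarith

private theorem c_nat (K r M n N m T S : ℕ) (hr : 1 ≤ r) (hK : 1 ≤ K) (hM : M = 8 * K * r ^ 2)
    (hN1 : 16 * M + 8 * K * r ≤ N) (hN2 : N ≤ n ^ 2) (hT : T ≤ n ^ 4)
    (hm2 : m ≤ r * N) :
    m ≤ M * (m / M + 1) ∧ 4 * (2 * (N / (8 * M)) * M) ≤ N ∧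
      4 * (K * r * (m / M + 1)) ≤ N ∧ 1 ≤ N / (8 * M) ∧
      N / (8 * M) ≤ 2 ^ (7 * S + 2 * (Nat.log 2 n + 1) + r) ∧
      T ≤ (N / (8 * M)) * (T / (N / (8 * M)) + 1) ∧
      7 * S ≤ 7 * S + 2 * (Nat.log 2 n + 1) + r ∧
      m ≤ 2 ^ (7 * S + 2 * (Nat.log 2 n + 1) + r) ∧
      T ≤ 2 ^ (2 * (7 * S + 2 * (Nat.log 2 n + 1) + r)) := by
  have hM0 : 0 < M := by
    rw [hM]
    positivity
  have hB : 1 ≤ N / (8 * M) := by
    rw [Nat.le_div_iff_mul_le (by omega)]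
    omega
  have hn : n < 2 ^ (Nat.log 2 n + 1) := Nat.lt_pow_succ_log_self (by norm_num) n
  set L := Nat.log 2 n + 1 with hL
  have hNL : N ≤ 2 ^ (2 * L) := by
    refine hN2.trans ?_
    rw [mul_comm 2 L, pow_mul]
    exact Nat.pow_le_pow_left hn.le 2
  refine ⟨?_, ?_, ?_, hB, ?_, ?_, by omega, ?_, ?_⟩
  · exact (Nat.lt_mul_div_succ m hM0).le
  · calc 4 * (2 * (N / (8 * M)) * M) = 8 * M * (N / (8 * M)) := by ring
      _ ≤ N := Nat.mul_div_le N (8 * M)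
  · have h1 : M * (m / M) ≤ r * N := (Nat.mul_div_le m M).trans hm2
    have h2 : r * (8 * K * r * (m / M)) ≤ r * N := by
      refine le_trans (le_of_eq ?_) h1
      nth_rewrite 2 [hM]
      ring
    have h3 : 8 * K * r * (m / M) ≤ N := Nat.le_of_mul_le_mul_left h2 hr
    have h4 : 4 * (K * r * (m / M + 1)) * 2 = 8 * K * r * (m / M) + 8 * K * r := by ring
    omega
  · refine (Nat.div_le_self _ _).trans (hNL.trans ?_)
    exact Nat.pow_le_pow_right (by norm_num) (by omega)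
  · exact (Nat.lt_mul_div_succ T hB).le
  · calc m ≤ r * N := hm2
      _ ≤ 2 ^ r * 2 ^ (2 * L) := Nat.mul_le_mul (Nat.lt_two_pow_self).le hNL
      _ = 2 ^ (r + 2 * L) := (pow_add _ _ _).symm
      _ ≤ _ := Nat.pow_le_pow_right (by norm_num) (by omega)
  · calc T ≤ n ^ 4 := hT
      _ ≤ (2 ^ L) ^ 4 := Nat.pow_le_pow_left hn.le 4
      _ = 2 ^ (L * 4) := (pow_mul _ _ _).symm
      _ ≤ _ := Nat.pow_le_pow_right (by norm_num) (by omega)

theorem numC (ε : ℝ) (hε : 0 < ε) (hε1 : ε ≤ 1) (k r : ℕ) (hr : 1 ≤ r) : ∃ M n₀ : ℕ, ∀ n ≥ n₀,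
    (((2 * k + 2 : ℕ) : ℝ) ≤ ε / 16 * Real.logb 2 n) ∧
    (2 * 2 ^ M * (n : ℝ) ^ (2 - ε / (16 * ((2 * k + 2 : ℕ) : ℝ))) ≤ (n.choose 2 : ℝ)) ∧
    ∀ m T S : ℕ, n.choose 2 ≤ m → m ≤ r * n.choose 2 → n.choose 2 ≤ T → 1 ≤ S →
      (T : ℝ) * S ≤ (n : ℝ) ^ (4 - ε) → ∃ b B κ0 S' : ℕ, m ≤ M * b ∧
        4 * (2 * B * M) ≤ n.choose 2 ∧ 4 * ((2 * k + 2) * r * b) ≤ n.choose 2 ∧
        1 ≤ B ∧ B ≤ 2 ^ S' ∧ T ≤ B * κ0 ∧ 7 * S ≤ S' ∧ m ≤ 2 ^ S' ∧ T ≤ 2 ^ (2 * S') ∧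
        ((256 * (k + (2 * k + 2) + 1) * (κ0 + 1) * S' : ℕ) : ℝ) + (n : ℝ) ^ (2 - ε) ≤
          (n : ℝ) ^ (2 - 7 / 8 * ε) := by
  obtain ⟨K, hK⟩ : ∃ K : ℕ, K = 2 * k + 2 := ⟨_, rfl⟩
  rw [← hK]
  have hK1 : 1 ≤ K := by omega
  have hK0 : (0 : ℝ) < K := by exact_mod_cast hK1
  obtain ⟨M, hM⟩ : ∃ M : ℕ, M = 8 * K * r ^ 2 := ⟨_, rfl⟩
  have hM0 : 0 < M := by
    rw [hM]
    positivity
  have hM0r : (0 : ℝ) < M := by exact_mod_cast hM0
  have hδ : 0 < ε / (16 * (K : ℝ)) := by positivity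
  obtain ⟨C, hC⟩ : ∃ C : ℝ, C = 256 * (k + K + 1) * (64 * M + 8) + 1 := ⟨_, rfl⟩
  have hlog : Filter.Tendsto (fun n : ℕ => Real.logb 2 (n : ℝ)) Filter.atTop Filter.atTop :=
    (Real.tendsto_logb_atTop (by norm_num)).comp tendsto_natCast_atTop_atTop
  have ev := (Filter.eventually_ge_atTop (16 * M + 8 * K * r + 4)).and
    ((hlog.eventually_ge_atTop ((K : ℝ) * 16 / ε)).and
    ((c_pow (show 2 - ε / (16 * (K : ℝ)) < 2 by linarith) (8 * 2 ^ M)).and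
    ((c_log (9 + r) (by positivity) (show 0 < ε / 16 by positivity)).and
    (c_pow (show 2 - ε + ε / 16 < 2 - 7 / 8 * ε by linarith) C))))
  obtain ⟨n₀, hn₀⟩ := Filter.eventually_atTop.1 ev
  refine ⟨M, n₀, ?_⟩
  intro n hn
  obtain ⟨f0, f1, f2, f3, f4⟩ := hn₀ n hn
  have hn4 : (4 : ℝ) ≤ n := by
    have : 4 ≤ n := by omega
    exact_mod_cast this
  have hn0 : (0 : ℝ) < n := by linarith
  have hn1 : (1 : ℝ) ≤ n := by linarith
  obtain ⟨N, hN⟩ : ∃ N : ℕ, N = n.choose 2 := ⟨_, rfl⟩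
  rw [← hN]
  have hNr : (N : ℝ) = n * (n - 1) / 2 := by
    rw [hN, Nat.cast_choose_two]
  have hNl : (n : ℝ) ^ 2 / 4 ≤ N := by
    rw [hNr]
    nlinarith
  have hnN : (n : ℝ) ≤ N := by
    refine le_trans ?_ hNl
    nlinarith
  have hnN' : n ≤ N := by exact_mod_cast hnN
  have hN2 : N ≤ n ^ 2 := by
    rw [hN]
    exact Nat.choose_le_pow n 2
  have hlog0 : 0 ≤ Real.logb 2 n := Real.logb_nonneg (by norm_num) hn1
  refine ⟨?_, ?_, ?_⟩
  · rw [div_le_iff₀ hε] at f1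
    linarith
  · rw [Real.rpow_two] at f2
    refine le_trans ?_ hNl
    linarith
  · intro m T S hm1 hm2 hT1 hS hTS
    have hSr : (1 : ℝ) ≤ S := by exact_mod_cast hS
    have hT0 : (0 : ℝ) ≤ T := by positivity
    have hT4 : T ≤ n ^ 4 := by
      have h1 : (T : ℝ) ≤ (n : ℝ) ^ (4 - ε) := by nlinarith
      have h2 : (n : ℝ) ^ (4 - ε) ≤ (n : ℝ) ^ ((4 : ℕ) : ℝ) :=
        Real.rpow_le_rpow_of_exponent_le hn1 (by push_cast; linarith)
      rw [Real.rpow_natCast] at h2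
      exact_mod_cast h1.trans h2
    obtain ⟨g1, g2, g3, g4, g5, g6, g7, g8, g9⟩ :=
      c_nat K r M n N m T S hr hK1 hM (by omega) hN2 hT4 hm2
    refine ⟨m / M + 1, N / (8 * M), T / (N / (8 * M)) + 1,
      7 * S + 2 * (Nat.log 2 n + 1) + r, g1, g2, g3, g4, g5, g6, g7, g8, g9, ?_⟩
    set B : ℕ := N / (8 * M) with hB
    have hB0 : (0 : ℝ) < B := by exact_mod_cast g4
    -- lower bound of `B`
    have hB1 : N < 8 * M * (B + 1) := Nat.lt_mul_div_succ N (by omega)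
    have hB2 : N ≤ 16 * M * B := by
      have h1 : 8 * M * (B + 1) ≤ 16 * M * B := by
        calc 8 * M * (B + 1) ≤ 8 * M * (B + B) := Nat.mul_le_mul_left _ (by omega)
          _ = 16 * M * B := by ring
      exact (hB1.trans_le h1).le
    have hB3 : (N : ℝ) ≤ 16 * M * B := by exact_mod_cast hB2
    have hn2 : (0 : ℝ) < (n : ℝ) ^ 2 := by positivity
    have hTN : (N : ℝ) ≤ T := by exact_mod_cast hT1
    have hκ : ((T / B + 1 + 1 : ℕ) : ℝ) ≤ (64 * M + 8) * T / (n : ℝ) ^ 2 := by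
      have h1 : ((T / B : ℕ) : ℝ) ≤ (T : ℝ) / B := Nat.cast_div_le
      have h2 : (T : ℝ) / B ≤ 64 * M * T / (n : ℝ) ^ 2 := by
        rw [div_le_div_iff₀ hB0 hn2]
        have h3 : (n : ℝ) ^ 2 ≤ 64 * M * B := by linarith
        calc (T : ℝ) * (n : ℝ) ^ 2 ≤ T * (64 * M * B) := mul_le_mul_of_nonneg_left h3 hT0
          _ = 64 * M * T * B := by ring
      have h3 : (2 : ℝ) ≤ 8 * T / (n : ℝ) ^ 2 := by
        rw [le_div_iff₀ hn2]
        linarith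
      have h4 : (64 * M + 8) * (T : ℝ) / (n : ℝ) ^ 2 =
          64 * M * T / (n : ℝ) ^ 2 + 8 * T / (n : ℝ) ^ 2 := by ring
      rw [h4]
      push_cast
      linarith
    have hL : ((Nat.log 2 n : ℕ) : ℝ) ≤ Real.logb 2 n := by
      have := Real.natLog_le_logb n 2
      simpa using this
    have hS' : ((7 * S + 2 * (Nat.log 2 n + 1) + r : ℕ) : ℝ) ≤
        (9 + r + 2 * Real.logb 2 n) * S := by
      push_cast
      have h1 : (0 : ℝ) ≤ r := by positivity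
      have h2 : (2 + r + 2 * Real.logb 2 n) * 1 ≤ (2 + r + 2 * Real.logb 2 n) * S :=
        mul_le_mul_of_nonneg_left hSr (by positivity)
      linarith
    have hx : (0 : ℝ) ≤ (n : ℝ) ^ (2 - ε) := by positivity
    have hy : 1 ≤ (n : ℝ) ^ (ε / 16) := Real.one_le_rpow hn1 (by positivity)
    have e1 : (T : ℝ) * S / (n : ℝ) ^ 2 ≤ (n : ℝ) ^ (2 - ε) := by
      rw [div_le_iff₀ hn2, ← Real.rpow_natCast, ← Real.rpow_add hn0]
      refine hTS.trans (le_of_eq ?_)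
      congr 1
      push_cast
      ring
    have e2 : ((T / B + 1 + 1 : ℕ) : ℝ) * ((7 * S + 2 * (Nat.log 2 n + 1) + r : ℕ) : ℝ) ≤
        (64 * M + 8) * ((n : ℝ) ^ (2 - ε) * (n : ℝ) ^ (ε / 16)) := by
      calc ((T / B + 1 + 1 : ℕ) : ℝ) * ((7 * S + 2 * (Nat.log 2 n + 1) + r : ℕ) : ℝ)
          ≤ ((64 * M + 8) * T / (n : ℝ) ^ 2) * ((9 + r + 2 * Real.logb 2 n) * S) :=
            mul_le_mul hκ hS' (by positivity) (by positivity)
        _ = (64 * M + 8) * ((T * S / (n : ℝ) ^ 2) * (9 + r + 2 * Real.logb 2 n)) := by ring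
        _ ≤ (64 * M + 8) * ((n : ℝ) ^ (2 - ε) * (n : ℝ) ^ (ε / 16)) := by
            refine mul_le_mul_of_nonneg_left ?_ (by positivity)
            exact mul_le_mul e1 f3 (by positivity) hx
    have e3 : (n : ℝ) ^ (2 - ε + ε / 16) = (n : ℝ) ^ (2 - ε) * (n : ℝ) ^ (ε / 16) :=
      Real.rpow_add hn0 _ _
    have e4 : (n : ℝ) ^ (2 - ε) ≤ (n : ℝ) ^ (2 - ε) * (n : ℝ) ^ (ε / 16) :=
      le_mul_of_one_le_right hx hy
    refine le_trans ?_ f4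
    rw [e3, hC]
    have e5 : ((256 * (k + K + 1) * (T / B + 1 + 1) * (7 * S + 2 * (Nat.log 2 n + 1) + r) : ℕ) :
        ℝ) = 256 * (k + K + 1) * (((T / B + 1 + 1 : ℕ) : ℝ) *
          ((7 * S + 2 * (Nat.log 2 n + 1) + r : ℕ) : ℝ)) := by
      push_cast
      ring
    rw [e5]
    have e6 := mul_le_mul_of_nonneg_left e2
      (show (0 : ℝ) ≤ 256 * ((k : ℝ) + K + 1) by positivity)
    calc _ ≤ 256 * ((k : ℝ) + K + 1) *
          ((64 * M + 8) * ((n : ℝ) ^ (2 - ε) * (n : ℝ) ^ (ε / 16))) +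
          (n : ℝ) ^ (2 - ε) * (n : ℝ) ^ (ε / 16) := add_le_add e6 e4
      _ = _ := by ring

end Pool.Agent.SC
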