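import Mathlib
import Pool.Agent.Lib.MP_0a1b52_lc_FP.Pass
import Pool.Agent.Lib.MP_0a1b52_lc_RQ.Main
import Pool.Agent.Lib.MP_69a69c_lc_SH.OSim
import Pool.Agent.Lib.MP_0a1b52_lc_SC.CoverC
import Pool.Agent.Lib.MP_0a1b52_lc_SC.Classes
import Pool.Agent.Lib.MP_0a1b52_lc_SC.NumC

/-!
# CLIQUE in any encoding, stack machines with several heads, and sparse oracles
-/

set_option autoImplicit false

namespace Pool.Agent.SC

open Finset
open Pool.Agent.LT (Inp)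
open Pool.Agent.HM (InI HeadNondet NHeadProg)
open Pool.Agent.StackO (AtMostPerLength Tn card_states)
open Pool.Agent.SH (OHeadProg ONHeadProg OSim.nSim OSim.nSim_accepts OSim.detSim
  OSim.detSim_outputs)
open Pool.Agent.FP (EdgeVar Clq)
open Pool.Agent.RK (StarK)

open Classical in
/-- the accepted graphs among the `Q i`, given the parameters -/
private theorem finalC_core {n k m M b B κ0 S T w N : ℕ} {α β : ℝ} (φ : Fin m → EdgeVar n)
    (C : Fin (2 * k + 2) → Finset (Fin M)) (hC : ∀ i j, i ≠ j → Disjoint (C i) (C j))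
    (hS : 1 ≤ S) (hm : m ≤ 2 ^ S) (hw : w ≤ 2 ^ S) (hT : T ≤ 2 ^ (2 * S)) (hBS : B ≤ 2 ^ S)
    (hB : 1 ≤ B) (hTB : T ≤ B * κ0) (P : NHeadProg m k w) (Q : Fin N → EdgeVar n → Bool)
    (hP : ∀ x : EdgeVar n → Bool, P.Accepts T (fun c => x (φ c)) → ¬ Clq x)
    (hQ : ∀ A : (EdgeVar n → Bool) → Prop,
      StarK (fun j => univ.filter fun e : EdgeVar n =>
        ∀ c : Fin m, φ c = e → ∃ i ∈ C j, InI 0 b B i c) A →
      (∀ x, A x → ¬ Clq x) → ((univ.filter fun i => A (Q i)).card : ℝ) ≤ N * (2 : ℝ) ^ (-α))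
    (hαβ : ((256 * (k + (2 * k + 2) + 1) * (κ0 + 1) * S : ℕ) : ℝ) + β ≤ α) :
    ((univ.filter fun i => P.Accepts T (fun c => Q i (φ c))).card : ℝ) ≤ N * (2 : ℝ) ^ (-β) := by
  obtain ⟨Θ, Tr, hΘ, hst, hacc, hcov⟩ := coverC k m T S w 0 b M (2 * k + 2) B κ0 P C hC (by omega)
    hS hm hw hT hBS hB hTB
  have h1 : (univ.filter fun i => P.Accepts T (fun c => Q i (φ c))) ⊆
      univ.biUnion fun θ : Fin Θ => univ.filter fun i => Tr θ (fun c => Q i (φ c)) := by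
    intro i hi
    rw [mem_filter] at hi
    obtain ⟨θ, hθ⟩ := hcov _ hi.2
    rw [mem_biUnion]
    exact ⟨θ, mem_univ _, mem_filter.2 ⟨mem_univ _, hθ⟩⟩
  have h2 : ∀ θ : Fin Θ, ((univ.filter fun i => Tr θ (fun c => Q i (φ c))).card : ℝ) ≤
      N * (2 : ℝ) ^ (-α) := by
    intro θ
    refine hQ (fun x => Tr θ (fun c => x (φ c))) ?_ fun x hx => hP x (hacc θ _ hx)
    intro u v hv hA
    refine hst θ (fun c => u (φ c)) (fun j c => v j (φ c)) (fun j i hi => hv j _ ?_) hA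
    intro hin
    rw [mem_filter] at hin
    obtain ⟨a, ha, ha'⟩ := hin.2 i rfl
    exact hi a ha ha'
  have h3 : ((univ.filter fun i => P.Accepts T (fun c => Q i (φ c))).card : ℝ) ≤
      ∑ θ : Fin Θ, ((univ.filter fun i => Tr θ (fun c => Q i (φ c))).card : ℝ) := by
    exact_mod_cast (card_le_card h1).trans card_biUnion_le
  have h4 : ∑ θ : Fin Θ, ((univ.filter fun i => Tr θ (fun c => Q i (φ c))).card : ℝ) ≤
      Θ * (N * (2 : ℝ) ^ (-α)) := by
    calc ∑ θ : Fin Θ, ((univ.filter fun i => Tr θ (fun c => Q i (φ c))).card : ℝ)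
        ≤ ∑ _θ : Fin Θ, (N * (2 : ℝ) ^ (-α)) := sum_le_sum fun θ _ => h2 θ
      _ = Θ * (N * (2 : ℝ) ^ (-α)) := by
          rw [sum_const, card_univ, Fintype.card_fin, nsmul_eq_mul]
  have h5 : (Θ : ℝ) ≤ (2 : ℝ) ^ ((256 * (k + (2 * k + 2) + 1) * (κ0 + 1) * S : ℕ) : ℝ) := by
    rw [Real.rpow_natCast]
    exact_mod_cast hΘ
  have hN0 : (0 : ℝ) ≤ N := Nat.cast_nonneg _
  calc ((univ.filter fun i => P.Accepts T (fun c => Q i (φ c))).card : ℝ)
      ≤ Θ * (N * (2 : ℝ) ^ (-α)) := h3.trans h4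
    _ ≤ (2 : ℝ) ^ ((256 * (k + (2 * k + 2) + 1) * (κ0 + 1) * S : ℕ) : ℝ) *
        (N * (2 : ℝ) ^ (-α)) := mul_le_mul_of_nonneg_right h5 (by positivity)
    _ = N * ((2 : ℝ) ^ ((256 * (k + (2 * k + 2) + 1) * (κ0 + 1) * S : ℕ) : ℝ) *
        (2 : ℝ) ^ (-α)) := by ring
    _ = N * (2 : ℝ) ^ (((256 * (k + (2 * k + 2) + 1) * (κ0 + 1) * S : ℕ) : ℝ) + -α) := by
        rw [Real.rpow_add (by norm_num)]
    _ ≤ N * (2 : ℝ) ^ (-β) := by
        refine mul_le_mul_of_nonneg_left ?_ hN0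
        exact Real.rpow_le_rpow_of_exponent_le (by norm_num) (by linarith)

open Classical in
/-- without oracle, for programs of width at most `2 ^ (7 * S)` -/
theorem coreC (ε : ℝ) (hε : 0 < ε) (hε1 : ε ≤ 1) (k r : ℕ) : ∃ n₀ : ℕ, ∀ n ≥ n₀,
    ∃ (N : ℕ) (Q : Fin N → EdgeVar n → Bool), 0 < N ∧ (∀ i, ¬ Clq (Q i)) ∧
      ∀ (m : ℕ) (φ : Fin m → EdgeVar n), n.choose 2 ≤ m →
      (∀ e, (univ.filter fun c => φ c = e).card ≤ r) →
      ∀ T S w : ℕ, n.choose 2 ≤ T → 1 ≤ S → w ≤ 2 ^ (7 * S) →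
        (T : ℝ) * S ≤ (n : ℝ) ^ (4 - ε) →
      ∀ P : NHeadProg m k w, (∀ x : EdgeVar n → Bool, P.Accepts T (fun c => x (φ c)) → ¬ Clq x) →
        ((univ.filter fun i => P.Accepts T (fun c => Q i (φ c))).card : ℝ) ≤
          N * (2 : ℝ) ^ (-((n : ℝ) ^ (2 - ε))) := by
  obtain ⟨n₁, hE⟩ := RQ.embed ε hε hε1
  obtain ⟨M, n₂, hN⟩ := numC ε hε hε1 k (max r 1) (le_max_right _ _)
  refine ⟨max n₁ n₂, fun n hn => ?_⟩
  have hn1 : n₁ ≤ n := (le_max_left _ _).trans hn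
  have hn2 : n₂ ≤ n := (le_max_right _ _).trans hn
  obtain ⟨hK, hX, hpar⟩ := hN n hn2
  obtain ⟨N, Q, hN0, hQ, hemb⟩ := hE n hn1 (2 * k + 2) (by omega) hK
  refine ⟨N, Q, hN0, hQ, fun m φ hm hφ T S w hT hS hw hTS P hP => ?_⟩
  have hcard : Fintype.card (EdgeVar n) = n.choose 2 := by
    have h1 := FP.Pass_card n
    have h2 : n * (n - 1) = 2 * Fintype.card (EdgeVar n) := by
      rw [Nat.mul_sub_one]
      omega
    rw [Nat.choose_two_right, h2, Nat.mul_div_cancel_left _ (by norm_num)]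
  have hφ' : ∀ e, (univ.filter fun c => φ c = e).card ≤ max r 1 :=
    fun e => (hφ e).trans (le_max_left _ _)
  have hmr : m ≤ max r 1 * n.choose 2 := by
    have h1 := card_le_mul_card_image_of_maps_to (s := (univ : Finset (Fin m)))
      (t := (univ : Finset (EdgeVar n))) (f := φ) (fun _ _ => mem_univ _) (max r 1)
      (fun e _ => hφ' e)
    rw [card_univ, Fintype.card_fin, card_univ, hcard] at h1
    exact h1
  obtain ⟨b, B, κ0, S', a1, a2, a3, a4, a5, a6, a7, a8, a9, a10⟩ :=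
    hpar m T S hm hmr hT hS hTS
  obtain ⟨C, hC1, hC2⟩ := exists_classes (M := M) (b := b) (B := B) (p := 2 * k + 2) φ hφ' a1
    (by rw [hcard]; exact a2) (by rw [hcard]; exact a3)
  refine finalC_core (b := b) (α := (n : ℝ) ^ (2 - 7 / 8 * ε)) (β := (n : ℝ) ^ (2 - ε))
    φ C hC1 (by omega) a8 (hw.trans (Nat.pow_le_pow_right (by norm_num) a7)) a9 a5 a4 a6 P Q
    hP ?_ a10
  intro T' hT' hT''
  refine hemb _ (fun t => ?_) T' hT' hT''
  have h2 := hC2 t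
  rw [hcard] at h2
  have h3 : (n.choose 2 : ℝ) ≤ 2 * 2 ^ M * ((univ.filter fun e : EdgeVar n =>
      ∀ c : Fin m, φ c = e → ∃ i ∈ C t, InI 0 b B i c).card : ℝ) := by
    exact_mod_cast h2
  have h4 : (0 : ℝ) < 2 * 2 ^ M := by positivity
  exact le_of_mul_le_mul_left (hX.trans h3) h4

open Classical in
/-- with a sparse oracle -/
theorem resultC (ε : ℝ) (hε : 0 < ε) (hε1 : ε ≤ 1) (k r : ℕ) : ∃ n₀ : ℕ, ∀ n ≥ n₀,
    ∃ (N : ℕ) (Q : Fin N → EdgeVar n → Bool), 0 < N ∧ (∀ i, ¬ Clq (Q i)) ∧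
      ∀ (m : ℕ) (φ : Fin m → EdgeVar n), n.choose 2 ≤ m →
      (∀ e, (univ.filter fun c => φ c = e).card ≤ r) →
      ∀ (A : Set (List Bool)) (T S w : ℕ), AtMostPerLength A (2 ^ S) → n.choose 2 ≤ T →
        1 ≤ S → w ≤ 2 ^ S → (T : ℝ) * S ≤ (n : ℝ) ^ (4 - ε) →
      (∀ P : ONHeadProg m k w,
        (∀ x : EdgeVar n → Bool, P.Accepts A (2 ^ S) T (fun c => x (φ c)) → ¬ Clq x) →
        ((univ.filter fun i => P.Accepts A (2 ^ S) T (fun c => Q i (φ c))).card : ℝ) ≤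
          N * (2 : ℝ) ^ (-((n : ℝ) ^ (2 - ε)))) ∧
      ¬ ∃ P : OHeadProg m k w, ∀ x : EdgeVar n → Bool,
        P.Outputs A (2 ^ S) T (fun c => x (φ c)) (decide (Clq x)) := by
  obtain ⟨n₁, hE⟩ := coreC ε hε hε1 k r
  refine ⟨max n₁ 1, fun n hn => ?_⟩
  have hn1 : 1 ≤ n := (le_max_right _ _).trans hn
  obtain ⟨N, Q, hN0, hQ, hcore⟩ := hE n ((le_max_left _ _).trans hn)
  refine ⟨N, Q, hN0, hQ, fun m φ hm hφ A T S w hA hT hS hw hTS => ⟨fun P hP => ?_, ?_⟩⟩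
  · have h1 := hcore m φ hm hφ T S _ hT hS (card_states hA le_rfl hS hw) hTS
      (OSim.nSim (Fintype.equivFin (Fin w × Tn A (2 ^ S))) P)
      (fun x hx => hP x ((OSim.nSim_accepts _ P _).2 hx))
    refine le_trans (le_of_eq ?_) h1
    refine congrArg (fun z : ℕ => (z : ℝ)) (congrArg Finset.card ?_)
    ext i
    rw [mem_filter, mem_filter, OSim.nSim_accepts (Fintype.equivFin (Fin w × Tn A (2 ^ S)))]
  · rintro ⟨P, hP⟩
    let P' := OSim.detSim (Fintype.equivFin (Fin w × Tn A (2 ^ S))) P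
    have hP' : ∀ x : EdgeVar n → Bool, P'.Outputs T (fun c => x (φ c)) (decide (Clq x)) :=
      fun x => OSim.detSim_outputs _ P _ _ (hP x)
    have h1 := hcore m φ hm hφ T S _ hT hS (card_states hA le_rfl hS hw) hTS
      (P'.toN false) (fun x hx hc => by
        rw [HM.toN_accepts] at hx
        have h2 := hP' x
        rw [decide_eq_true hc] at h2
        exact absurd (HM.outputs_unique P' T _ h2 hx) (by simp))
    have h3 : (univ.filter fun i => (P'.toN false).Accepts T (fun c => Q i (φ c))) = univ := by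
      ext i
      rw [mem_filter]
      refine ⟨fun h => h.1, fun h => ⟨h, ?_⟩⟩
      rw [HM.toN_accepts]
      have h2 := hP' (Q i)
      rwa [decide_eq_false (hQ i)] at h2
    rw [h3, card_univ, Fintype.card_fin] at h1
    have h4 : (0 : ℝ) < N := by exact_mod_cast hN0
    have h5 : (1 : ℝ) ≤ (2 : ℝ) ^ (-((n : ℝ) ^ (2 - ε))) := by
      by_contra hcon
      rw [not_le] at hcon
      nlinarith
    have h6 : (0 : ℝ) < (n : ℝ) ^ (2 - ε) := Real.rpow_pos_of_pos (by exact_mod_cast hn1) _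
    have h7 : (2 : ℝ) ^ (-((n : ℝ) ^ (2 - ε))) < 1 :=
      Real.rpow_lt_one_of_one_lt_of_neg (by norm_num) (by linarith)
    linarith

end Pool.Agent.SC
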